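import Mathlib
import Pool.Agent.Lib.MP_cd509c_nt.DC.Main2

set_option autoImplicit false

/-!
# The de Bruijn–Newman constants of the derivatives of the Ramanujan Xi-function

`H 0 z = Λ(6 + i z) = Ξ_Δ(z)`; `H t` is obtained by inserting the factor `exp (t log² y)` in the
Mellin integral of `Δ(iy)`. The `n`-th derivative of `H t` has only real zeros exactly for
`t ≥ Λ n`, where `0 ≤ Λ n ≤ 1 / (8 + c (n + 1))` and `limsup n Λ n ≤ 1 / 32`.
-/

namespace Pool.Agent.Results.MP_cd509c_nt.DerivativeConstants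

/-- `H t z`: the Mellin transform of `y ↦ exp (t log² y) Δ(iy)` at the point `6 + i z`. -/
noncomputable def H (t : ℝ) (z : ℂ) : ℂ :=
  mellin (fun y : ℝ =>
    ((Real.exp (t * Real.log y ^ 2) * (Real.exp (-2 * Real.pi * y) *
      ∏' n : ℕ, (1 - Real.exp (-2 * Real.pi * ((n : ℝ) + 1) * y)) ^ 24) : ℝ) : ℂ))
    (6 + Complex.I * z)

/-- There are `c > 0` and a non-increasing sequence `Λ n` such that, for every `n` and every real
`t`, all zeros of the `n`-th derivative of `H t` are real if and only if `t ≥ Λ n`; moreover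
`0 ≤ Λ n ≤ 1 / (8 + c (n + 1))` for every `n`, and for every `κ > 1/32` one has `Λ n ≤ κ / n` for
all large `n`. -/
theorem result :
    ∃ (c : ℝ) (Λ : ℕ → ℝ), 0 < c ∧ Antitone Λ ∧
      (∀ (n : ℕ) (t : ℝ), (∀ z : ℂ, iteratedDeriv n (H t) z = 0 → z.im = 0) ↔ Λ n ≤ t) ∧
      (∀ n : ℕ, 0 ≤ Λ n ∧ Λ n ≤ 1 / (8 + c * (n + 1))) ∧
      ∀ κ : ℝ, 1 / 32 < κ → ∃ n₀ : ℕ, ∀ n : ℕ, n₀ ≤ n → Λ n ≤ κ / n :=
  Pool.Agent.Lib.MP_cd509c_nt.DC.m_final2

end Pool.Agent.Results.MP_cd509c_nt.DerivativeConstants
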