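import Mathlib
import Pool.Agent.Lib.MP_cd509c_nt.DN.Main4

set_option autoImplicit false

/-!
# Zeros of the derivatives of the Ramanujan Xi-function

`Lam s` is the Mellin transform of `y ↦ Δ(iy)`, so `Xi z = Lam (6 + i z)` is the Ramanujan
Xi-function. The zeros of its `n`-th derivative in `|Re z| ≤ T` which are not real or not simple
are, with multiplicity, at most `C e^{-cn}` times the number of its simple real zeros in `[-T, T]`.
-/

namespace Pool.Agent.Results.MP_cd509c_nt.DerivativeDensity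

/-- `Λ(s)`: the Mellin transform of `y ↦ Δ(iy)`. -/
noncomputable def Lam (s : ℂ) : ℂ :=
  mellin (fun y : ℝ =>
    (((Real.exp (-2 * Real.pi * y)) *
      ∏' n : ℕ, (1 - Real.exp (-2 * Real.pi * ((n : ℝ) + 1) * y)) ^ 24 : ℝ) : ℂ)) s

/-- The Ramanujan Xi-function. -/
noncomputable def Xi (z : ℂ) : ℂ := Lam (6 + Complex.I * z)

/-- There are `C, c > 0` such that for all `n ≥ C` and `T ≥ 2` there is a finite set `R` of simple
real zeros in `[-T, T]` of the `n`-th derivative of `Xi`, such that every finite set of zeros in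
`|Re z| ≤ T` which are not real or not simple has, with multiplicity, at most
`C e^{-cn} min (|R|, T log T)` elements. -/
theorem result :
    ∃ C c : ℝ, 0 < C ∧ 0 < c ∧ ∀ n : ℕ, C ≤ n → ∀ T : ℝ, 2 ≤ T →
      ∃ R : Finset ℝ, (∀ x ∈ R, |x| ≤ T ∧ iteratedDeriv n Xi x = 0 ∧
          deriv (iteratedDeriv n Xi) x ≠ 0) ∧
        ∀ S : Finset ℂ, (∀ z ∈ S, iteratedDeriv n Xi z = 0 ∧
          (z.im ≠ 0 ∨ deriv (iteratedDeriv n Xi) z = 0) ∧ |z.re| ≤ T) →
          ∑ z ∈ S, (analyticOrderNatAt (iteratedDeriv n Xi) z : ℝ) ≤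
            C * Real.exp (-(c * n)) * min (R.card : ℝ) (T * Real.log T) :=
  Pool.Agent.Lib.MP_cd509c_nt.DN.m_Dfinal

end Pool.Agent.Results.MP_cd509c_nt.DerivativeDensity
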