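import Mathlib
import Pool.Agent.Lib.MP_cd509c_nt.DN.Main4

set_option autoImplicit false

/-!
# Zeros of the heat flow of the Ramanujan Xi-function

`H 0 z = Λ(6 + i z) = Ξ_Δ(z)`, and `H t` is the function obtained from it by running the
(backward) heat equation `∂_t H = -∂_z² H`, i.e. by inserting the factor `exp (t log² y)` in the
Mellin integral of `Δ(iy)`. The zeros of `H t` in `T ≤ |Re z| ≤ 2T` which are not real or not
simple are, with multiplicity, at most `C exp (-c t log² T)` times the number of its simple real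
zeros in `[T, 2T]`.
-/

namespace Pool.Agent.Results.MP_cd509c_nt.HeatDensity

/-- `H t z`: the Mellin transform of `y ↦ exp (t log² y) Δ(iy)` at the point `6 + i z`. -/
noncomputable def H (t : ℝ) (z : ℂ) : ℂ :=
  mellin (fun y : ℝ =>
    ((Real.exp (t * Real.log y ^ 2) * (Real.exp (-2 * Real.pi * y) *
      ∏' n : ℕ, (1 - Real.exp (-2 * Real.pi * ((n : ℝ) + 1) * y)) ^ 24) : ℝ) : ℂ))
    (6 + Complex.I * z)

/-- There are `C, c > 0` such that for all `t ≤ 1` and `T ≥ 2` with `t log² T ≥ C` there is a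
finite set `R` of simple real zeros in `[T, 2T]` of `H t`, such that every finite set of zeros in
`T ≤ |Re z| ≤ 2T` which are not real or not simple has, with multiplicity, at most
`C exp (-c t log² T) min (|R|, T log T)` elements. -/
theorem result :
    ∃ C c : ℝ, 0 < C ∧ 0 < c ∧ ∀ t T : ℝ, t ≤ 1 → 2 ≤ T → C ≤ t * Real.log T ^ 2 →
      ∃ R : Finset ℝ, (∀ x ∈ R, T ≤ x ∧ x ≤ 2 * T ∧ H t x = 0 ∧ deriv (H t) x ≠ 0) ∧
        ∀ S : Finset ℂ, (∀ z ∈ S, H t z = 0 ∧ (z.im ≠ 0 ∨ deriv (H t) z = 0) ∧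
          T ≤ |z.re| ∧ |z.re| ≤ 2 * T) →
          ∑ z ∈ S, (analyticOrderNatAt (H t) z : ℝ) ≤
            C * Real.exp (-(c * t * Real.log T ^ 2)) * min (R.card : ℝ) (T * Real.log T) :=
  Pool.Agent.Lib.MP_cd509c_nt.DN.m_Hfinal

end Pool.Agent.Results.MP_cd509c_nt.HeatDensity
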