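import Mathlib
import Pool.Agent.Lib.MP_cd509c_nt.JD.Main

set_option autoImplicit false

/-!
# Density of the exceptional zeros of the Jensen polynomials of the Ramanujan Xi-function

`Lam s` is the Mellin transform of `y ↦ Δ(iy)`, so `Ξ_Δ(z) = Lam (6 + i z)`;
`gam k = k!/(2k)! Lam^{(2k)}(6)`, and `J d n` is the Jensen polynomial of degree `d` and shift `n`
of the sequence `gam`.
-/

namespace Pool.Agent.Results.MP_cd509c_nt.JensenDensity

open Polynomial
open scoped Nat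

/-- `Λ(s)`: the Mellin transform of `y ↦ Δ(iy)`. -/
noncomputable def Lam (s : ℂ) : ℂ :=
  mellin (fun y : ℝ =>
    (((Real.exp (-2 * Real.pi * y)) *
      ∏' n : ℕ, (1 - Real.exp (-2 * Real.pi * ((n : ℝ) + 1) * y)) ^ 24 : ℝ) : ℂ)) s

/-- `γ(k) = k!/(2k)! · Λ^{(2k)}(6)`, so that `Λ(6 + z) = ∑ γ(k) z^{2k} / k!`. -/
noncomputable def gam (k : ℕ) : ℂ := (k ! : ℂ) / ((2 * k)! : ℂ) * iteratedDeriv (2 * k) Lam 6

/-- The Jensen polynomial `J^{d,n}(X) = ∑_j (d choose j) γ(n+j) X^j`. -/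
noncomputable def J (d n : ℕ) : ℂ[X] :=
  ∑ j ∈ Finset.range (d + 1), C ((d.choose j : ℂ) * gam (n + j)) * X ^ j

theorem J_eq (d n : ℕ) : J d n = Pool.Agent.Lib.MP_cd509c_nt.JD.Jp d n := rfl

/-- There are `C, c > 0` such that, for all `d ≥ 1` and `n ≥ 0`, the polynomial `J d n` has
degree `d` and at most `C e^{-cn} √d` of its zeros, counted with multiplicity, are not real or
not simple. -/
theorem result :
    ∃ C c : ℝ, 0 < C ∧ 0 < c ∧ ∀ d n : ℕ, 1 ≤ d →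
      (J d n).natDegree = d ∧
      (((J d n).roots.filter fun z => z.im ≠ 0 ∨ 1 < (J d n).rootMultiplicity z).card : ℝ) ≤
        C * Real.exp (-(c * n)) * Real.sqrt d := by
  obtain ⟨C, c, hC, hc, h⟩ := Pool.Agent.Lib.MP_cd509c_nt.JD.m_fin
  refine ⟨C, c, hC, hc, fun d n hd => ?_⟩
  rw [J_eq]
  have hne := Pool.Agent.Lib.MP_cd509c_nt.JD.Jp_ne d n
  refine ⟨Pool.Agent.Lib.MP_cd509c_nt.JD.Jp_natDegree d n, le_trans ?_
    (h d n hd _ hne (Pool.Agent.Lib.MP_cd509c_nt.JD.Jp_eval d n))⟩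
  have hle : ((Pool.Agent.Lib.MP_cd509c_nt.JD.Jp d n).roots.filter fun z =>
      z.im ≠ 0 ∨ 1 < (Pool.Agent.Lib.MP_cd509c_nt.JD.Jp d n).rootMultiplicity z) ≤
      ((Pool.Agent.Lib.MP_cd509c_nt.JD.Jp d n).roots.filter fun z =>
      z.im ≠ 0 ∨ (Pool.Agent.Lib.MP_cd509c_nt.JD.Jp d n).derivative.eval z = 0) := by
    refine Multiset.monotone_filter_right _ fun z hz => ?_
    rcases hz with hz | hz
    · exact Or.inl hz
    · exact Or.inr ((one_lt_rootMultiplicity_iff_isRoot hne).1 hz).2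
  exact_mod_cast Multiset.card_le_card hle

end Pool.Agent.Results.MP_cd509c_nt.JensenDensity
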